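import Mathlib

/-!
# Cardinal arithmetic for the universal graph
-/

namespace Pool.Agent.Helper883_Universal

open Cardinal Set

universe u

/-- Choosing a family by recursion along a well-order, where each choice has to avoid the set of
the earlier ones. -/
theorem rec_choice {J V : Type u} (R : J → Set V → V → Prop)
    (h : ∀ j (Z : Set V), #Z ≤ #J → ∃ y, R j Z y) :
    ∃ (r : J → J → Prop) (_ : IsWellOrder J r) (y : J → V),
      ∀ j, R j {z | ∃ j', r j' j ∧ z = y j'} (y j) := by
  classical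
  have hsmall : ∀ (s : Set J) (f : s → V), #(Set.range f) ≤ #J := fun s f =>
    mk_range_le.trans (mk_set_le s)
  refine ⟨WellOrderingRel, inferInstance, ?_⟩
  let wf : WellFounded (WellOrderingRel : J → J → Prop) := WellOrderingRel.isWellOrder.wf
  let step : ∀ j : J, (∀ j' : J, WellOrderingRel j' j → V) → V := fun j rec =>
    Classical.choose (h j (Set.range fun j' : {j' // WellOrderingRel j' j} => rec j'.1 j'.2)
      (hsmall _ _))
  let y : J → V := wf.fix step
  refine ⟨y, fun j => ?_⟩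
  have hy : y j = step j (fun j' _ => y j') := wf.fix_eq step j
  have hspec := Classical.choose_spec (h j
    (Set.range fun j' : {j' // WellOrderingRel j' j} => y j'.1) (hsmall _ _))
  have hset : (Set.range fun j' : {j' // WellOrderingRel j' j} => y j'.1) =
      {z | ∃ j', WellOrderingRel j' j ∧ z = y j'} := by
    ext z
    simp only [mem_range, Subtype.exists, exists_prop, mem_ofPred_eq]
    constructor
    · rintro ⟨j', h1, rfl⟩
      exact ⟨j', h1, rfl⟩
    · rintro ⟨j', h1, rfl⟩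
      exact ⟨j', h1, rfl⟩
  have hy2 : y j = Classical.choose (h j
    (Set.range fun j' : {j' // WellOrderingRel j' j} => y j'.1) (hsmall _ _)) := hy
  rw [← hset, hy2]
  exact hspec

/-- A well-order of type `(2 ^ 2 ^ κ)`, in which sets of size at most `2 ^ κ` are bounded, with a
map guessing every set of size at most `2 ^ κ` unboundedly often. -/
theorem exists_universe (κ : Cardinal.{u}) (hκ : ℵ₀ ≤ κ) :
    ∃ (V : Type u) (_ : LinearOrder V) (_ : WellFoundedLT V) (D : V → Set V), Nonempty V ∧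
      (∀ P : Set V, #P ≤ 2 ^ κ → ∃ β, ∀ p ∈ P, p < β) ∧
      (∀ P : Set V, #P ≤ 2 ^ κ → ∀ β, ∃ x, β < x ∧ D x = P) := by
  classical
  have hμ : ℵ₀ ≤ (2 : Cardinal.{u}) ^ κ := hκ.trans (cantor κ).le
  have hμ2 : ℵ₀ ≤ (2 : Cardinal.{u}) ^ (2 : Cardinal.{u}) ^ κ := hμ.trans (cantor _).le
  let V : Type u := ((2 : Cardinal.{u}) ^ (2 : Cardinal.{u}) ^ κ).ord.ToType
  have hV : #V = (2 : Cardinal.{u}) ^ (2 : Cardinal.{u}) ^ κ := by simp [V]
  have hVinf : Infinite V := by
    rw [infinite_iff, hV]; exact hμ2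
  have hcof : (2 : Cardinal.{u}) ^ κ < Order.cof V := by
    simp only [V]
    rw [Ordinal.cof_toType]
    exact lt_cof_ord_power hμ (by norm_num)
  have hbound : ∀ P : Set V, #P ≤ 2 ^ κ → ∃ β, ∀ p ∈ P, p < β := by
    intro P hP
    by_contra hcon
    push Not at hcon
    have : IsCofinal P := fun β => by
      obtain ⟨p, hp, hp2⟩ := hcon β
      exact ⟨p, hp, hp2⟩
    exact absurd (Order.cof_le this) (not_le.2 (lt_of_le_of_lt hP hcof))
  have hcardP : #{P : Set V // #P ≤ 2 ^ κ} ≤ #V := by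
    refine (mk_bounded_set_le V _).trans ?_
    rw [hV, max_eq_left hμ2, ← power_mul, mul_eq_self hμ]
  have hprod : #({P : Set V // #P ≤ 2 ^ κ} × V) ≤ #V := by
    rw [mk_prod, lift_id, lift_id]
    refine (mul_le_mul' hcardP le_rfl).trans ?_
    rw [mul_eq_self (infinite_iff.1 hVinf)]
  have hne : Nonempty ({P : Set V // #P ≤ 2 ^ κ} × V) :=
    ⟨⟨⟨∅, by simp⟩, Classical.arbitrary V⟩⟩
  obtain ⟨inj⟩ := hprod
  let g : V → {P : Set V // #P ≤ 2 ^ κ} × V := Function.invFun inj
  have hg : ∀ q, g (inj q) = q := Function.leftInverse_invFun inj.injective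
  refine ⟨V, inferInstance, inferInstance, fun x => (g x).1.1, inferInstance, hbound, ?_⟩
  intro P hP β
  by_contra hcon
  push Not at hcon
  -- the fibre of `P` has full size but is bounded
  have h1 : #V ≤ #(Iic β) := by
    refine ⟨⟨fun v => ⟨inj (⟨P, hP⟩, v), ?_⟩, ?_⟩⟩
    · by_contra h
      apply hcon (inj (⟨P, hP⟩, v)) (not_le.1 h)
      rw [hg]
    · intro v w hvw
      have := inj.injective (Subtype.ext_iff.1 hvw)
      exact congrArg Prod.snd this
  obtain ⟨β', hβ'⟩ := hbound {β} (by simp only [mk_singleton]; exact one_le_aleph0.trans hμ)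
  have h2 : #(Iic β) ≤ #(Iio β') := mk_le_mk_of_subset fun v hv =>
    lt_of_le_of_lt hv (hβ' β rfl)
  have h3 : #(Iio β') < #V := by
    exact mk_Iio_lt β' (by simp [V])
  exact absurd (h1.trans h2) (not_le.2 h3)

/-- The well-order of type `κ⁺`. -/
theorem exists_levels (κ : Cardinal.{u}) (hκ : ℵ₀ ≤ κ) :
    ∃ (Ω : Type u) (_ : LinearOrder Ω) (_ : WellFoundedLT Ω), Nonempty Ω ∧
      #Ω = Order.succ κ ∧ (∀ P : Set Ω, #P ≤ κ → ∃ ξ, ∀ p ∈ P, p < ξ) ∧
      (∀ ξ : Ω, #(Iio ξ) ≤ κ) := by
  classical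
  let Ω : Type u := (Order.succ κ).ord.ToType
  have hΩ : #Ω = Order.succ κ := by simp [Ω]
  have hinf : Infinite Ω := by
    rw [infinite_iff, hΩ]; exact hκ.trans (Order.le_succ κ)
  have hcof : κ < Order.cof Ω := by
    simp only [Ω]
    rw [Ordinal.cof_toType, (isRegular_succ hκ).cof_ord]
    exact Order.lt_succ κ
  refine ⟨Ω, inferInstance, inferInstance, inferInstance, hΩ, ?_, ?_⟩
  · intro P hP
    by_contra hcon
    push Not at hcon
    have : IsCofinal P := fun β => by
      obtain ⟨p, hp, hp2⟩ := hcon β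
      exact ⟨p, hp, hp2⟩
    exact absurd (Order.cof_le this) (not_le.2 (lt_of_le_of_lt hP hcof))
  · intro ξ
    have h : #(Iio ξ) < Order.succ κ := by
      have := mk_Iio_lt ξ (by simp [Ω])
      rwa [hΩ] at this
    exact Order.lt_succ_iff.1 h

end Pool.Agent.Helper883_Universal
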