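import Pool.Agent.Helper883_Universal.Step
import Pool.Agent.Helper883_Good.Config

/-!
# The universal graph
-/

namespace Pool.Agent.Helper883_Universal

open Cardinal Set

universe u

section Lower

variable {V : Type u} [LinearOrder V] [WellFoundedLT V] (Ω : Type u) [LinearOrder Ω]
  (D : V → Set V)

/-- One step of the definition of the lower neighbourhoods. -/
def lowerStep (x : V) (rec : ∀ y, y < x → Set V) : Set V :=
  {z | z < x ∧ z ∈ D x ∧ (∀ w ∈ D x, w < x) ∧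
    ∃ l : V → Ω, ∀ z' (hz' : z' < x), z' ∈ D x → ∀ w ∈ D x, w ∈ rec z' hz' → l w < l z'}

/-- The lower neighbourhood of `x`: it is the guessed set `D x` if this set lies below `x` and
carries a levelling into `Ω` which is increasing along edges; otherwise it is empty. -/
noncomputable def lower (x : V) : Set V :=
  (wellFounded_lt : WellFounded ((· < ·) : V → V → Prop)).fix (lowerStep Ω D) x

theorem lower_eq (x : V) : lower Ω D x = lowerStep Ω D x (fun y _ => lower Ω D y) :=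
  (wellFounded_lt : WellFounded ((· < ·) : V → V → Prop)).fix_eq (lowerStep Ω D) x

theorem mem_lower (x z : V) : z ∈ lower Ω D x ↔ z ∈ D x ∧ (∀ w ∈ D x, w < x) ∧
    ∃ l : V → Ω, ∀ z' ∈ D x, ∀ w ∈ D x, w ∈ lower Ω D z' → l w < l z' := by
  rw [lower_eq]
  constructor
  · rintro ⟨h1, h2, h3, l, hl⟩
    exact ⟨h2, h3, l, fun z' hz' w hw => hl z' (h3 z' hz') hz' w hw⟩
  · rintro ⟨h2, h3, l, hl⟩
    exact ⟨h3 z h2, h2, h3, l, fun z' _ hz' w hw => hl z' hz' w hw⟩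

theorem lt_of_mem_lower {x z : V} (h : z ∈ lower Ω D x) : z < x := by
  rw [mem_lower] at h
  exact h.2.1 z h.1

/-- The graph: vertices are joined if the smaller one is in the lower neighbourhood of the
larger one. -/
noncomputable def graph : SimpleGraph V where
  Adj a b := a ∈ lower Ω D b ∨ b ∈ lower Ω D a
  symm := ⟨fun a b h => h.symm⟩
  loopless := ⟨fun a h => by
    rcases h with h | h <;> exact lt_irrefl a (lt_of_mem_lower Ω D h)⟩

theorem graph_adj {z x : V} (hzx : z < x) : (graph Ω D).Adj z x ↔ z ∈ lower Ω D x := by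
  constructor
  · rintro (h | h)
    · exact h
    · exact absurd (lt_of_mem_lower Ω D h) (not_lt_of_gt hzx)
  · intro h
    exact Or.inl h

/-- The part of a clique below one of its elements is levelled by `Ω`. -/
theorem clique_level [Nonempty Ω] {S : Set V} (hS : (graph Ω D).IsClique S) {x : V}
    (hx : x ∈ S) : ∃ l : V → Ω, ∀ w ∈ S, ∀ z ∈ S, w < z → z < x → l w < l z := by
  classical
  by_cases hne : ∃ z0 ∈ S, z0 < x
  · obtain ⟨z0, hz0, hlt⟩ := hne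
    have hmem : ∀ z ∈ S, z < x → z ∈ lower Ω D x := fun z hz hzx =>
      (graph_adj Ω D hzx).1 (hS hz hx hzx.ne)
    obtain ⟨_, _, l, hl⟩ := (mem_lower Ω D x z0).1 (hmem z0 hz0 hlt)
    refine ⟨l, fun w hw z hz hwz hzx => ?_⟩
    refine hl z ((mem_lower Ω D x z).1 (hmem z hz hzx)).1 w
      ((mem_lower Ω D x w).1 (hmem w hw (hwz.trans hzx))).1 ?_
    exact (graph_adj Ω D hwz).1 (hS hw hz hwz.ne)
  · refine ⟨fun _ => Classical.arbitrary Ω, fun w _ z hz _ hzx => ?_⟩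
    exact absurd ⟨z, hz, hzx⟩ hne

/-- Initial segments of cliques. -/
theorem clique_initial [Nonempty Ω] {κ : Cardinal.{u}} (hΩ : ∀ ξ : Ω, #(Iio ξ) ≤ κ) {S : Set V}
    (hS : (graph Ω D).IsClique S) {x y : V} (hx : x ∈ S) (hy : y ∈ S) (hyx : y < x) :
    #{z // z ∈ S ∧ z < y} ≤ κ := by
  obtain ⟨l, hl⟩ := clique_level Ω D hS hx
  refine le_trans ?_ (hΩ (l y))
  refine ⟨⟨fun z => ⟨l z.1, hl z.1 z.2.1 y hy z.2.2 hyx⟩, ?_⟩⟩
  rintro ⟨a, ha, hay⟩ ⟨b, hb, hby⟩ hab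
  have hab : l a = l b := congrArg Subtype.val hab
  rcases lt_trichotomy a b with h | h | h
  · exact absurd hab (hl a ha b hb h (hby.trans hyx)).ne
  · exact Subtype.ext h
  · exact absurd hab (hl b hb a ha h (hay.trans hyx)).ne'

/-- The cardinality of a set all of whose initial segments, except the last one, are small. -/
theorem card_le_of_initial {κ : Cardinal.{u}} (hκ : ℵ₀ ≤ κ) (S : Set V)
    (h : ∀ x ∈ S, ∀ y ∈ S, y < x → #{z // z ∈ S ∧ z < y} ≤ κ) : #S ≤ Order.succ κ := by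
  classical
  let B : Set V := {y | y ∈ S ∧ ∃ x ∈ S, y < x}
  have hB : #B ≤ Order.succ κ := by
    by_contra hcon
    rw [not_le] at hcon
    have h1 : (Order.succ κ).ord < Ordinal.type ((· < ·) : B → B → Prop) := by
      rw [← Cardinal.ord_lt_ord] at hcon
      refine lt_of_lt_of_le hcon ?_
      exact ord_le_type _
    obtain ⟨b, hb⟩ := Ordinal.typein_surj ((· < ·) : B → B → Prop) h1
    have h2 : #{z : B // z < b} = Order.succ κ := by
      have := congrArg Ordinal.card hb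
      rw [card_ord] at this
      rw [← this]
      rfl
    obtain ⟨hbS, x, hx, hbx⟩ := b.2
    have h3 := h x hx b.1 hbS hbx
    have h4 : #{z : B // z < b} ≤ #{z // z ∈ S ∧ z < b.1} := by
      refine ⟨⟨fun z => ⟨z.1.1, z.1.2.1, z.2⟩, ?_⟩⟩
      rintro ⟨⟨a, ha⟩, ha2⟩ ⟨⟨c, hc⟩, hc2⟩ hac
      simp only [Subtype.mk.injEq] at hac
      subst hac
      rfl
    rw [h2] at h4
    exact absurd (h4.trans h3) (not_le.2 (Order.lt_succ κ))
  have hsub : S ⊆ B ∪ (S \ B) := by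
    intro y hy
    by_cases h : y ∈ B
    · exact Or.inl h
    · exact Or.inr ⟨hy, h⟩
  have hone : #(S \ B : Set V) ≤ 1 := by
    rw [mk_le_one_iff_set_subsingleton]
    rintro a ⟨ha, haB⟩ b ⟨hb, hbB⟩
    rcases lt_trichotomy a b with h | h | h
    · exact absurd ⟨ha, b, hb, h⟩ haB
    · exact h
    · exact absurd ⟨hb, a, ha, h⟩ hbB
  refine (mk_le_mk_of_subset hsub).trans ?_
  refine (mk_union_le _ _).trans ?_
  have hinf : ℵ₀ ≤ Order.succ κ := hκ.trans (Order.le_succ κ)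
  refine (add_le_add hB (hone.trans (one_le_aleph0.trans hinf))).trans ?_
  rw [add_eq_self hinf]

end Lower

section Normal

variable {V : Type u} [LinearOrder V] [WellFoundedLT V] {Ω : Type u} [LinearOrder Ω]
  [WellFoundedLT Ω] {D : V → Set V}

/-- The normality lemma: a regressive assignment of small sets takes the same value at some two
adjacent vertices. -/
theorem normality [Nonempty Ω] {ι : Type u} {κ : Cardinal.{u}} (hκ : ℵ₀ ≤ κ) (hι : #ι ≤ κ)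
    (hbound : ∀ P : Set V, #P ≤ 2 ^ κ → ∃ β, ∀ p ∈ P, p < β)
    (hguess : ∀ P : Set V, #P ≤ 2 ^ κ → ∀ β, ∃ x, β < x ∧ D x = P)
    (hΩ : #Ω ≤ 2 ^ κ) (hΩb : ∀ P : Set Ω, #P ≤ κ → ∃ ξ, ∀ p ∈ P, p < ξ)
    (S : V → Set (ι × V)) (hS1 : ∀ x, #(S x) ≤ κ) (hS2 : ∀ x, ∀ t ∈ S x, t.2 ∈ lower Ω D x) :
    ∃ x, ∃ z ∈ lower Ω D x, S z = S x := by
  classical
  have hμ : ℵ₀ ≤ (2 : Cardinal.{u}) ^ κ := hκ.trans (cantor κ).le
  have hstep := fun (P Q : {P : Set V // #P ≤ 2 ^ κ}) =>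
    step hκ hι hbound (lower Ω D) (fun x z hz => lt_of_mem_lower Ω D hz) S P.1 Q.1 P.2 Q.2
  choose Lf βf hL1 hβP hβQ hβL hLind hLT using hstep
  -- the recursion
  have hU : ∀ (s : Set Ω) (f : s → Set V), (∀ i, #(f i) ≤ 2 ^ κ) → #(⋃ i, f i) ≤ 2 ^ κ := by
    intro s f hf
    refine (mk_iUnion_le _).trans ?_
    refine (mul_le_mul' ((mk_set_le s).trans hΩ) (ciSup_le' hf)).trans ?_
    rw [mul_eq_self hμ]
  have hR : ∀ (s : Set Ω) (f : s → V), #(Set.range f) ≤ 2 ^ κ := fun s f =>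
    mk_range_le.trans ((mk_set_le s).trans hΩ)
  let wf : WellFounded ((· < ·) : Ω → Ω → Prop) := wellFounded_lt
  let stepF : ∀ ξ : Ω, (∀ η : Ω, η < ξ → {P : Set V // #P ≤ 2 ^ κ} × V) →
      {P : Set V // #P ≤ 2 ^ κ} × V := fun ξ rec =>
    (⟨Lf ⟨⋃ η : Iio ξ, (rec η.1 η.2).1.1, hU _ _ fun η => (rec η.1 η.2).1.2⟩
        ⟨Set.range fun η : Iio ξ => (rec η.1 η.2).2, hR _ _⟩, hL1 _ _⟩,
      βf ⟨⋃ η : Iio ξ, (rec η.1 η.2).1.1, hU _ _ fun η => (rec η.1 η.2).1.2⟩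
        ⟨Set.range fun η : Iio ξ => (rec η.1 η.2).2, hR _ _⟩)
  let F : Ω → {P : Set V // #P ≤ 2 ^ κ} × V := wf.fix stepF
  let Pξ : Ω → {P : Set V // #P ≤ 2 ^ κ} := fun ξ =>
    ⟨⋃ η : Iio ξ, (F η.1).1.1, hU _ _ fun η => (F η.1).1.2⟩
  let Qξ : Ω → {P : Set V // #P ≤ 2 ^ κ} := fun ξ =>
    ⟨Set.range fun η : Iio ξ => (F η.1).2, hR _ _⟩
  have hF : ∀ ξ, F ξ = (⟨Lf (Pξ ξ) (Qξ ξ), hL1 _ _⟩, βf (Pξ ξ) (Qξ ξ)) := fun ξ =>
    wf.fix_eq stepF ξ
  let L : Ω → Set V := fun ξ => (F ξ).1.1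
  let β : Ω → V := fun ξ => (F ξ).2
  have hLeq : ∀ ξ, L ξ = Lf (Pξ ξ) (Qξ ξ) := fun ξ => by simp only [L]; rw [hF ξ]
  have hβeq : ∀ ξ, β ξ = βf (Pξ ξ) (Qξ ξ) := fun ξ => by simp only [β]; rw [hF ξ]
  have hmemP : ∀ ξ v, v ∈ (Pξ ξ).1 ↔ ∃ η < ξ, v ∈ L η := by
    intro ξ v
    simp only [Pξ, L, mem_iUnion]
    constructor
    · rintro ⟨⟨η, hη⟩, hv⟩
      exact ⟨η, hη, hv⟩
    · rintro ⟨η, hη, hv⟩
      exact ⟨⟨η, hη⟩, hv⟩
  have h1 : ∀ η ξ, η < ξ → ∀ v ∈ L η, v < β ξ := by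
    intro η ξ hηξ v hv
    rw [hβeq]
    exact hβP _ _ v ((hmemP ξ v).2 ⟨η, hηξ, hv⟩)
  have h2 : ∀ η ξ, η < ξ → β η < β ξ := by
    intro η ξ hηξ
    rw [hβeq ξ]
    exact hβQ _ _ (β η) ⟨⟨η, hηξ⟩, rfl⟩
  have h3 : ∀ ξ, ∀ v ∈ L ξ, β ξ < v := by
    intro ξ v hv
    rw [hLeq] at hv
    rw [hβeq]
    exact hβL _ _ v hv
  have h4 : ∀ ξ, ∀ v ∈ L ξ, ∀ v' ∈ L ξ, v' ∉ lower Ω D v := by
    intro ξ v hv v' hv'
    rw [hLeq] at hv hv'
    exact hLind _ _ v hv v' hv'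
  -- elements of different levels
  have h5 : ∀ η ξ, ∀ v ∈ L η, ∀ w ∈ L ξ, v < w → η ≤ ξ := by
    intro η ξ v hv w hw hvw
    by_contra h
    rw [not_le] at h
    exact absurd (((h1 ξ η h w hw).trans (h3 η v hv)).trans hvw) (lt_irrefl _)
  have h6 : ∀ η ξ, ∀ v ∈ L η, v ∈ L ξ → η = ξ := by
    intro η ξ v hv hv'
    rcases lt_trichotomy η ξ with h | h | h
    · exact absurd ((h1 η ξ h v hv).trans (h3 ξ v hv')) (lt_irrefl _)
    · exact h
    · exact absurd ((h1 ξ η h v hv').trans (h3 η v hv)) (lt_irrefl _)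
  let Pinf : Set V := ⋃ ξ, L ξ
  have hPinf : #Pinf ≤ 2 ^ κ := by
    refine (mk_iUnion_le _).trans ?_
    refine (mul_le_mul' hΩ (ciSup_le' fun ξ => (F ξ).1.2)).trans ?_
    rw [mul_eq_self hμ]
  let lev : V → Ω := fun v => if h : ∃ ξ, v ∈ L ξ then Classical.choose h else Classical.arbitrary Ω
  have hlev : ∀ ξ, ∀ v ∈ L ξ, lev v = ξ := by
    intro ξ v hv
    have hex : ∃ ξ, v ∈ L ξ := ⟨ξ, hv⟩
    simp only [lev, dif_pos hex]
    exact h6 _ _ v (Classical.choose_spec hex) hv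
  -- the top point
  obtain ⟨b, hb⟩ := hbound (Pinf ∪ Set.range β) (by
    refine (mk_union_le _ _).trans ?_
    refine (add_le_add hPinf (mk_range_le.trans hΩ)).trans ?_
    rw [add_eq_self hμ])
  obtain ⟨x, hbx, hDx⟩ := hguess Pinf hPinf b
  have hlow : ∀ z, z ∈ lower Ω D x ↔ z ∈ Pinf := by
    intro z
    rw [mem_lower, hDx]
    constructor
    · exact fun h => h.1
    · intro hz
      refine ⟨hz, fun w hw => (hb w (Or.inl hw)).trans hbx, lev, ?_⟩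
      intro z' hz' w hw hwz
      obtain ⟨ξ, hξ⟩ := mem_iUnion.1 hz'
      obtain ⟨η, hη⟩ := mem_iUnion.1 hw
      rw [hlev ξ z' hξ, hlev η w hη]
      refine lt_of_le_of_ne (h5 η ξ w hη z' hξ (lt_of_mem_lower Ω D hwz)) ?_
      intro h
      subst h
      exact h4 η z' hξ w hη hwz
  -- reflecting `S x`
  obtain ⟨ξ, hξ⟩ := hΩb ((fun t : ι × V => lev t.2) '' S x) (mk_image_le.trans (hS1 x))
  have hTP : ∀ t ∈ S x, t.2 ∈ (Pξ ξ).1 := by
    intro t ht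
    have h := (hlow t.2).1 (hS2 x t ht)
    obtain ⟨η, hη⟩ := mem_iUnion.1 h
    rw [hmemP]
    refine ⟨η, ?_, hη⟩
    have := hξ (lev t.2) ⟨t, ht, rfl⟩
    rwa [hlev η t.2 hη] at this
  rcases hLT (Pξ ξ) (Qξ ξ) (S x) (hS1 x) hTP with ⟨y, hy, hyS⟩ | ⟨Z, hZ1, hZ2, hZ3⟩
  · refine ⟨x, y, ?_, hyS⟩
    rw [← hLeq] at hy
    exact (hlow y).2 (mem_iUnion.2 ⟨ξ, hy⟩)
  · exfalso
    rw [← hβeq] at hZ1 hZ3
    obtain ⟨z, hz, hzx⟩ := hZ3 x ((hb (β ξ) (Or.inr ⟨ξ, rfl⟩)).trans hbx) rfl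
    obtain ⟨η, hη⟩ := mem_iUnion.1 ((hlow z).1 hzx)
    apply hZ2 z hz
    rw [hmemP]
    refine ⟨η, ?_, hη⟩
    by_contra h
    rw [not_lt] at h
    have h7 : β ξ ≤ β η := by
      rcases h.lt_or_eq with h | h
      · exact (h2 ξ η h).le
      · rw [h]
    exact absurd (((hZ1 z hz).trans_le h7).trans (h3 η z hη)) (lt_irrefl _)

end Normal

end Pool.Agent.Helper883_Universal
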