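import Pool.Agent.Helper883_Universal.Graph

/-!
# Graphs without cliques of size `κ⁺⁺` forcing monochromatic cliques of size `κ⁺`
-/

namespace Pool.Agent.Helper883_Universal

open Cardinal Set Pool.Agent.Helper883_Good

universe u

/-- Monochromatic cliques from the normality lemma. -/
theorem exists_mono_of_normality {V ι : Type u} [LinearOrder V] [WellFoundedLT V]
    {κ : Cardinal.{u}} (hκ : ℵ₀ ≤ κ) (hι : #ι ≤ κ) (G : SimpleGraph V)
    (hnorm : ∀ S : V → Set (ι × V), (∀ x, #(S x) ≤ κ) →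
      (∀ x, ∀ t ∈ S x, t.2 < x ∧ G.Adj t.2 x) → ∃ x z, z < x ∧ G.Adj z x ∧ S z = S x)
    (c : G.edgeSet → ι) :
    ∃ S : Set V, κ < #S ∧ (∃ x ∈ S, ∀ y ∈ S, y ≤ x) ∧ G.IsClique S ∧
      ∃ k, ∀ e : G.edgeSet, (∀ v ∈ (e : Sym2 V), v ∈ S) → c e = k := by
  classical
  by_contra hcon
  let E : ι → V → V → Prop := fun i z x => z < x ∧ ∃ h : G.Adj z x, c ⟨s(z, x), h⟩ = i
  have hEr : ∀ i a b, E i a b → a < b := fun i a b h => h.1
  have hcard : ∀ i x, #(greedy (· < ·) (E i) x) ≤ κ := by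
    intro i x
    by_contra h
    rw [not_le] at h
    have hE : ∀ a ∈ insert x (greedy (· < ·) (E i) x), ∀ b ∈ insert x (greedy (· < ·) (E i) x),
        a < b → E i a b := by
      intro a ha b hb hab
      rcases hb with rfl | hb
      · rcases ha with rfl | ha
        · exact absurd hab (lt_irrefl _)
        · exact ((mem_greedy (· < ·) (E i) _ a).1 ha).2.1
      · rcases ha with rfl | ha
        · exact absurd (((mem_greedy (· < ·) (E i) _ b).1 hb).1.trans hab) (lt_irrefl _)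
        · exact ((mem_greedy (· < ·) (E i) x b).1 hb).2.2 a hab ha
    apply hcon
    refine ⟨insert x (greedy (· < ·) (E i) x),
      h.trans_le (mk_le_mk_of_subset (subset_insert _ _)), ⟨x, mem_insert _ _, ?_⟩, ?_, i, ?_⟩
    · rintro y (rfl | hy)
      · exact le_rfl
      · exact ((mem_greedy (· < ·) (E i) x y).1 hy).1.le
    · intro a ha b hb hab
      rcases lt_or_gt_of_ne hab with h | h
      · exact (hE a ha b hb h).2.1
      · exact (hE b hb a ha h).2.1.symm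
    · rintro ⟨e, he⟩ hv
      induction e using Sym2.ind with
      | _ a b =>
        have ha := hv a (by simp)
        have hb := hv b (by simp)
        have hab : a ≠ b := by
          rintro rfl
          exact G.irrefl he
        rcases lt_or_gt_of_ne hab with h | h
        · exact (hE a ha b hb h).2.2
        · obtain ⟨_, h1, h2⟩ := hE b hb a ha h
          rw [← h2]
          congr 1
          exact Subtype.ext Sym2.eq_swap
  let S : V → Set (ι × V) := fun x => {t | t.2 ∈ greedy (· < ·) (E t.1) x}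
  have hS1 : ∀ x, #(S x) ≤ κ := by
    intro x
    have hsub : S x ⊆ ⋃ i, (fun v => (i, v)) '' greedy (· < ·) (E i) x := by
      rintro ⟨i, v⟩ ht
      exact mem_iUnion.2 ⟨i, v, ht, rfl⟩
    refine (mk_le_mk_of_subset hsub).trans ?_
    refine (mk_iUnion_le _).trans ?_
    refine (mul_le_mul' hι (ciSup_le' fun i => mk_image_le.trans (hcard i x))).trans ?_
    rw [mul_eq_self hκ]
  obtain ⟨x, z, hzx, hadj, hS⟩ := hnorm S hS1 (by
    rintro x ⟨i, v⟩ ht
    have h := (mem_greedy (· < ·) (E i) x v).1 ht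
    exact ⟨h.1, h.2.1.2.1⟩)
  have hE : E (c ⟨s(z, x), hadj⟩) z x := ⟨hzx, hadj, rfl⟩
  obtain ⟨h1, _, _, h4⟩ := yy_spec (r := ((· < ·) : V → V → Prop)) (hEr (c ⟨s(z, x), hadj⟩)) hE
  apply h4
  have h5 : (c ⟨s(z, x), hadj⟩, yy ((· < ·) : V → V → Prop) (E (c ⟨s(z, x), hadj⟩)) z x) ∈ S x := h1
  rw [← hS] at h5
  exact h5

/-- The main theorem. -/
theorem main (κ : Cardinal.{u}) (hκ : ℵ₀ ≤ κ) :
    ∃ (V : Type u) (_ : LinearOrder V) (_ : WellFoundedLT V) (G : SimpleGraph V),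
      (∀ S : Set V, G.IsClique S → #S ≤ Order.succ κ) ∧
      (∀ S : Set V, G.IsClique S → ∀ x ∈ S, ∀ y ∈ S, y < x → #{z // z ∈ S ∧ z < y} ≤ κ) ∧
      ∀ (ι : Type u) (c : G.edgeSet → ι), #ι ≤ κ →
        ∃ S : Set V, κ < #S ∧ (∃ x ∈ S, ∀ y ∈ S, y ≤ x) ∧ G.IsClique S ∧
          ∃ k, ∀ e : G.edgeSet, (∀ v ∈ (e : Sym2 V), v ∈ S) → c e = k := by
  obtain ⟨V, i1, i2, D, hV, hbound, hguess⟩ := exists_universe κ hκ
  obtain ⟨Ω, j1, j2, hΩne, hΩ, hΩb, hΩi⟩ := exists_levels κ hκ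
  have hini : ∀ S : Set V, (graph Ω D).IsClique S → ∀ x ∈ S, ∀ y ∈ S, y < x →
      #{z // z ∈ S ∧ z < y} ≤ κ := fun S hS x hx y hy hyx => clique_initial Ω D hΩi hS hx hy hyx
  refine ⟨V, i1, i2, graph Ω D, fun S hS => card_le_of_initial hκ S (hini S hS), hini, ?_⟩
  intro ι c hι
  refine exists_mono_of_normality hκ hι (graph Ω D) ?_ c
  intro S hS1 hS2
  obtain ⟨x, z, hz, hS⟩ := normality hκ hι hbound hguess
    (hΩ.le.trans (Order.succ_le_of_lt (cantor κ))) hΩb S hS1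
    (fun x t ht => (graph_adj Ω D (hS2 x t ht).1).1 (hS2 x t ht).2)
  have hlt := lt_of_mem_lower Ω D hz
  exact ⟨x, z, hlt, (graph_adj Ω D hlt).2 hz, hS⟩

end Pool.Agent.Helper883_Universal
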