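import Pool.Agent.Helper883_Universal.Base

/-!
# The step lemma
-/

namespace Pool.Agent.Helper883_Universal

open Cardinal Set

universe u

/-- The step lemma: given small sets `P` and `Q`, there are a small independent set `L` and a
point `β` separating it from `P` and `Q`, such that every small set `T` of labelled elements of
`P` is either the value of `S` at an element of `L`, or is only taken above `β` at points whose
lower set meets a fixed set outside of `P`. -/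
theorem step {V ι : Type u} [LinearOrder V] {κ : Cardinal.{u}} (hκ : ℵ₀ ≤ κ)
    (hι : #ι ≤ κ)
    (hbound : ∀ P : Set V, #P ≤ 2 ^ κ → ∃ β, ∀ p ∈ P, p < β)
    (lower : V → Set V) (hlower : ∀ x, ∀ z ∈ lower x, z < x)
    (S : V → Set (ι × V)) (P Q : Set V) (hP : #P ≤ 2 ^ κ) (hQ : #Q ≤ 2 ^ κ) :
    ∃ (L : Set V) (β : V), #L ≤ 2 ^ κ ∧ (∀ p ∈ P, p < β) ∧ (∀ q ∈ Q, q < β) ∧
      (∀ y ∈ L, β < y) ∧ (∀ y ∈ L, ∀ y' ∈ L, y' ∉ lower y) ∧
      ∀ T : Set (ι × V), #T ≤ κ → (∀ t ∈ T, t.2 ∈ P) →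
        (∃ y ∈ L, S y = T) ∨
        ∃ Z : Set V, (∀ z ∈ Z, z < β) ∧ (∀ z ∈ Z, z ∉ P) ∧
          ∀ y, β < y → S y = T → ∃ z ∈ Z, z ∈ lower y := by
  classical
  have hμ : ℵ₀ ≤ (2 : Cardinal.{u}) ^ κ := hκ.trans (cantor κ).le
  -- the index type of all possible `T`
  let J : Type u := {T : Set (ι × V) // T ⊆ {t | t.2 ∈ P} ∧ #T ≤ κ}
  have hcard : #({t : ι × V | t.2 ∈ P} : Set (ι × V)) ≤ 2 ^ κ := by
    have h1 : #({t : ι × V | t.2 ∈ P} : Set (ι × V)) ≤ #(ι × P) := by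
      refine ⟨⟨fun t => (t.1.1, ⟨t.1.2, t.2⟩), ?_⟩⟩
      rintro ⟨⟨a, b⟩, hb⟩ ⟨⟨c, d⟩, hd⟩ h
      simp only [Prod.mk.injEq, Subtype.mk.injEq] at h
      obtain ⟨rfl, rfl⟩ := h
      rfl
    refine h1.trans ?_
    rw [mk_prod, lift_id, lift_id]
    refine (mul_le_mul' (hι.trans (cantor κ).le) hP).trans ?_
    rw [mul_eq_self hμ]
  have hJ : #J ≤ 2 ^ κ := by
    refine (mk_bounded_subset_le _ κ).trans ?_
    refine (power_le_power_right (max_le hcard hμ)).trans ?_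
    rw [← power_mul, mul_eq_self hκ]
  -- free indices
  let Free : J → Prop := fun T => ∀ Z : Set V, #Z ≤ 2 ^ κ → (∀ z ∈ Z, z ∉ P) → ∀ β,
    ∃ y, β < y ∧ S y = T.1 ∧ ∀ z ∈ Z, z ∉ lower y
  have hnf : ∀ T : {T : J // ¬ Free T}, ∃ (Z : Set V) (β : V), #Z ≤ 2 ^ κ ∧ (∀ z ∈ Z, z ∉ P) ∧
      ∀ y, β < y → S y = T.1.1 → ∃ z ∈ Z, z ∈ lower y := by
    rintro ⟨T, hT⟩
    simp only [Free] at hT
    push Not at hT
    obtain ⟨Z, hZ, hZP, β, hβ⟩ := hT
    exact ⟨Z, β, hZ, hZP, hβ⟩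
  choose Zf βf hZf1 hZf2 hZf3 using hnf
  -- the point `β`
  have hbig : #((P ∪ Q) ∪ ((⋃ T, Zf T) ∪ Set.range βf) : Set V) ≤ 2 ^ κ := by
    have hJnf : #{T : J // ¬ Free T} ≤ 2 ^ κ := (mk_subtype_le _).trans hJ
    have hZ : #(⋃ T, Zf T) ≤ 2 ^ κ := by
      refine (mk_iUnion_le _).trans ?_
      refine (mul_le_mul' hJnf (ciSup_le' hZf1)).trans ?_
      rw [mul_eq_self hμ]
    have hR : #(Set.range βf) ≤ 2 ^ κ := mk_range_le.trans hJnf
    refine (mk_union_le _ _).trans ?_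
    refine (add_le_add (mk_union_le _ _) (mk_union_le _ _)).trans ?_
    refine (add_le_add (add_le_add hP hQ) (add_le_add hZ hR)).trans ?_
    rw [add_eq_self hμ, add_eq_self hμ]
  obtain ⟨β, hβ⟩ := hbound _ hbig
  -- the elements of `L`
  have hJf : #{T : J // Free T} ≤ 2 ^ κ := (mk_subtype_le _).trans hJ
  obtain ⟨r, hr, y, hy⟩ := rec_choice (J := {T : J // Free T}) (V := V)
    (fun T Z y => β < y ∧ (∀ z ∈ Z, z < y) ∧ S y = T.1.1 ∧ ∀ z ∈ Z, z ∉ P → z ∉ lower y) (by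
      rintro ⟨T, hT⟩ Z hZ
      have hZ' : #Z ≤ 2 ^ κ := hZ.trans hJf
      obtain ⟨β1, hβ1⟩ := hbound (insert β Z) (by
        refine (mk_insert_le).trans ?_
        refine (add_le_add hZ' (one_le_aleph0.trans hμ)).trans ?_
        rw [add_eq_self hμ])
      obtain ⟨y, hy1, hy2, hy3⟩ := hT (Z \ P) ((mk_le_mk_of_subset Set.sdiff_subset).trans hZ')
        (fun z hz => hz.2) β1
      refine ⟨y, (hβ1 β (mem_insert _ _)).trans hy1, ?_, hy2, ?_⟩
      · intro z hz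
        exact (hβ1 z (mem_insert_of_mem _ hz)).trans hy1
      · intro z hz hzP
        exact hy3 z ⟨hz, hzP⟩)
  refine ⟨Set.range y, β, mk_range_le.trans hJf, ?_, ?_, ?_, ?_, ?_⟩
  · intro p hp
    exact hβ p (Or.inl (Or.inl hp))
  · intro q hq
    exact hβ q (Or.inl (Or.inr hq))
  · rintro _ ⟨T, rfl⟩
    exact (hy T).1
  · rintro _ ⟨T, rfl⟩ _ ⟨T', rfl⟩ hmem
    rcases trichotomous_of r T T' with h | h | h
    · have h1 := (hy T').2.1 (y T) ⟨T, h, rfl⟩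
      exact absurd (hlower _ _ hmem) (not_lt_of_gt h1)
    · rw [h] at hmem
      exact lt_irrefl _ (hlower _ _ hmem)
    · refine (hy T).2.2.2 (y T') ⟨T', h, rfl⟩ ?_ hmem
      intro hP'
      exact absurd (hβ _ (Or.inl (Or.inl hP'))) (not_lt_of_gt (hy T').1)
  · intro T hT hTP
    let T' : J := ⟨T, fun t ht => hTP t ht, hT⟩
    by_cases hF : Free T'
    · left
      exact ⟨y ⟨T', hF⟩, ⟨_, rfl⟩, (hy ⟨T', hF⟩).2.2.1⟩
    · right
      refine ⟨Zf ⟨T', hF⟩, ?_, hZf2 _, ?_⟩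
      · intro z hz
        exact hβ z (Or.inr (Or.inl (mem_iUnion.2 ⟨_, hz⟩)))
      · intro y' hy' hS
        exact hZf3 ⟨T', hF⟩ y' ((hβ _ (Or.inr (Or.inr ⟨_, rfl⟩))).trans hy') hS

end Pool.Agent.Helper883_Universal
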